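import Mathlib

set_option autoImplicit false
set_option linter.all false

/-! CB3-G-CNB: the truncated logarithm, uniform integrability. -/

namespace Pool.Agent.Y125.CG

open Finset Filter Topology MeasureTheory
open scoped Real

/-- truncated logarithm -/
noncomputable def La (δ t : ℝ) : ℝ := Real.log (max t δ)

lemma La_lip {δ s t : ℝ} (hδ : 0 < δ) : La δ s ≤ La δ t + |s - t| / δ := by
  unfold La
  have h1 : 0 < max t δ := lt_of_lt_of_le hδ (le_max_right _ _)
  have h1' : 0 < max s δ := lt_of_lt_of_le hδ (le_max_right _ _)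
  have h0 := abs_nonneg (s - t)
  have h2 : max s δ ≤ max t δ + |s - t| := by
    refine max_le ?_ ?_
    · have a1 := le_abs_self (s - t)
      have a2 := le_max_left t δ
      linarith
    · have a2 := le_max_right t δ
      linarith
  have h3 : max s δ ≤ max t δ * Real.exp (|s - t| / δ) := by
    have h4 := Real.add_one_le_exp (|s - t| / δ)
    have h5 : |s - t| ≤ max t δ * (|s - t| / δ) := by
      rw [mul_div_assoc', le_div_iff₀ hδ, mul_comm]
      exact mul_le_mul_of_nonneg_right (le_max_right _ _) h0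
    calc max s δ ≤ max t δ + |s - t| := h2
      _ ≤ max t δ * (|s - t| / δ + 1) := by linarith
      _ ≤ _ := mul_le_mul_of_nonneg_left h4 h1.le
  calc Real.log (max s δ) ≤ Real.log (max t δ * Real.exp (|s - t| / δ)) := Real.log_le_log h1' h3
    _ = Real.log (max t δ) + |s - t| / δ := by
      rw [Real.log_mul h1.ne' (Real.exp_pos _).ne', Real.log_exp]

lemma le_exp_La {δ t : ℝ} (hδ : 0 < δ) : t ≤ Real.exp (La δ t) := by
  unfold La
  rw [Real.exp_log (lt_of_lt_of_le hδ (le_max_right _ _))]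
  exact le_max_left _ _

lemma La_cont {δ : ℝ} (hδ : 0 < δ) {f : ℝ → ℝ} (hf : Continuous f) : Continuous fun x => La δ (f x) := by
  unfold La
  refine Continuous.log (hf.max continuous_const) fun x => ?_
  exact (lt_of_lt_of_le hδ (le_max_right _ _)).ne'

/-- the factor -/
noncomputable def Gc (χ z : ℂ) : ℂ := 2 * Complex.cos (χ / 2) + 2 * Complex.cos z

lemma Gc_cont (χ : ℂ) : Continuous fun θ : ℝ => ‖Gc χ θ‖ := by
  unfold Gc
  fun_prop

lemma Gc_shift (χ : ℂ) (c θ y : ℝ) (hy : |y| ≤ 1) :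
    |‖Gc χ (c + y * Complex.I)‖ - ‖Gc χ θ‖| ≤ 4 * |y| + 2 * |c - θ| := by
  refine (abs_norm_sub_norm_le _ _).trans ?_
  have e : Gc χ (c + y * Complex.I) - Gc χ θ =
      ((2 * (Real.cos c * (Real.cosh y - 1)) : ℝ) : ℂ) - ((2 * (Real.sin c * Real.sinh y) : ℝ) : ℂ) * Complex.I +
        ((2 * (Real.cos c - Real.cos θ) : ℝ) : ℂ) := by
    unfold Gc
    rw [Complex.cos_add_mul_I]
    push_cast
    ring
  rw [e]
  refine (norm_add_le _ _).trans ?_
  have h1 : ‖((2 * (Real.cos c * (Real.cosh y - 1)) : ℝ) : ℂ) -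
      ((2 * (Real.sin c * Real.sinh y) : ℝ) : ℂ) * Complex.I‖ ≤ 4 * |y| := by
    refine (norm_sub_le _ _).trans ?_
    rw [norm_mul, Complex.norm_I, mul_one, Complex.norm_real, Complex.norm_real, Real.norm_eq_abs,
      Real.norm_eq_abs, abs_mul, abs_mul, abs_mul, abs_mul, Real.abs_sinh]
    have h2 : Real.cosh |y| + Real.sinh |y| = Real.exp |y| := Real.cosh_add_sinh _
    rw [Real.cosh_abs] at h2
    have h3 := Real.one_le_cosh y
    have h4 : 0 ≤ Real.sinh |y| := Real.sinh_nonneg_iff.2 (abs_nonneg y)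
    have h5 : |Real.exp |y| - 1| ≤ 2 * |(|y|)| := Real.abs_exp_sub_one_le (by rwa [abs_abs])
    rw [abs_abs] at h5
    have h6 := le_abs_self (Real.exp |y| - 1)
    rw [abs_of_nonneg (show 0 ≤ Real.cosh y - 1 by linarith), abs_of_nonneg (show (0 : ℝ) ≤ 2 by norm_num)]
    have h7 : |Real.cos c| * (Real.cosh y - 1) ≤ 1 * (Real.cosh y - 1) :=
      mul_le_mul_of_nonneg_right (Real.abs_cos_le_one c) (by linarith)
    have h8 : |Real.sin c| * Real.sinh |y| ≤ 1 * Real.sinh |y| :=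
      mul_le_mul_of_nonneg_right (Real.abs_sin_le_one c) h4
    linarith
  have h2 : ‖((2 * (Real.cos c - Real.cos θ) : ℝ) : ℂ)‖ ≤ 2 * |c - θ| := by
    rw [Complex.norm_real, Real.norm_eq_abs, abs_mul, abs_of_nonneg (show (0 : ℝ) ≤ 2 by norm_num)]
    have := Real.abs_cos_sub_cos_le c θ
    linarith
  linarith

/-- one cell -/
lemma cellc {δ : ℝ} (hδ : 0 < δ) (χ : ℂ) {h : ℝ} (hh : 0 < h) (c y : ℝ) (hy : |y| ≤ 1) :
    La δ ‖Gc χ (c + y * Complex.I)‖ ≤
      1 / (2 * h) * (∫ θ in (c - h)..(c + h), La δ ‖Gc χ θ‖) + (4 * |y| + 2 * h) / δ := by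
  set A := La δ ‖Gc χ (c + y * Complex.I)‖ with hA
  set E := (4 * |y| + 2 * h) / δ with hE
  have h1 : ∀ θ ∈ Set.Icc (c - h) (c + h), A - E ≤ La δ ‖Gc χ θ‖ := by
    intro θ hθ
    have h2 := La_lip (s := ‖Gc χ (c + y * Complex.I)‖) (t := ‖Gc χ θ‖) hδ
    have h3 := Gc_shift χ c θ y hy
    have h4 : |c - θ| ≤ h := by
      rw [abs_le]
      constructor <;> linarith [hθ.1, hθ.2]
    have h5 : |‖Gc χ (c + y * Complex.I)‖ - ‖Gc χ θ‖| / δ ≤ E := by
      rw [hE]
      gcongr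
      linarith
    linarith
  have h2 : ∫ θ in (c - h)..(c + h), (A - E) ≤ ∫ θ in (c - h)..(c + h), La δ ‖Gc χ θ‖ :=
    intervalIntegral.integral_mono_on (by linarith) (by simp)
      ((La_cont hδ (Gc_cont χ)).intervalIntegrable _ _) h1
  rw [intervalIntegral.integral_const, smul_eq_mul] at h2
  have h3 : (c + h - (c - h)) = 2 * h := by ring
  rw [h3] at h2
  have h4 : A - E ≤ 1 / (2 * h) * ∫ θ in (c - h)..(c + h), La δ ‖Gc χ θ‖ := by
    rw [one_div, ← div_eq_inv_mul, le_div_iff₀ (by positivity)]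
    linarith
  linarith

/-! ### the singularities -/

/-- the positive part of `log (σ / |cos (θ / 2)|)` -/
noncomputable def Ps (σ θ : ℝ) : ℝ := max 0 (Real.log σ - Real.log |Real.cos (θ / 2)|)

lemma Ps_nonneg (σ θ : ℝ) : 0 ≤ Ps σ θ := le_max_left _ _

lemma Ps_per (σ : ℝ) : Function.Periodic (Ps σ) (2 * π) := by
  intro θ
  unfold Ps
  rw [show (θ + 2 * π) / 2 = θ / 2 + π by ring, Real.cos_add_pi, abs_neg]

lemma logcos_int (c a b : ℝ) :
    IntervalIntegrable (fun θ => Real.log |Real.cos ((θ + c) / 2)|) volume a b := by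
  have h : MeromorphicOn (fun θ : ℝ => Real.cos ((θ + c) / 2)) (Set.uIcc a b) := by
    intro θ _
    refine AnalyticAt.meromorphicAt ?_
    fun_prop
  have := h.intervalIntegrable_log_norm
  simpa [Real.norm_eq_abs] using this

lemma Ps_int (σ c a b : ℝ) : IntervalIntegrable (fun θ => Ps σ (θ + c)) volume a b := by
  have h1 : IntervalIntegrable (fun θ => Real.log σ - Real.log |Real.cos ((θ + c) / 2)|) volume a b :=
    intervalIntegrable_const.sub (logcos_int c a b)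
  have h2 : (fun θ => Ps σ (θ + c)) = fun θ => ((Real.log σ - Real.log |Real.cos ((θ + c) / 2)|) +
      abs (Real.log σ - Real.log |Real.cos ((θ + c) / 2)|)) / 2 := by
    funext θ
    unfold Ps
    rcases le_total 0 (Real.log σ - Real.log |Real.cos ((θ + c) / 2)|) with h | h
    · rw [max_eq_right h, abs_of_nonneg h]; ring
    · rw [max_eq_left h, abs_of_nonpos h]; ring
  rw [h2]
  exact (h1.add h1.abs).div_const 2

lemma cos_ae (c : ℝ) : ∀ᵐ θ : ℝ, Real.cos ((θ + c) / 2) ≠ 0 := by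
  have h : {θ : ℝ | Real.cos ((θ + c) / 2) = 0}.Countable := by
    refine Set.Countable.mono ?_ (Set.countable_range fun k : ℤ => (2 * (k : ℝ) + 1) * π - c)
    intro θ hθ
    obtain ⟨k, hk⟩ := Real.cos_eq_zero_iff.1 hθ
    exact ⟨k, by simp only; linarith⟩
  have := h.ae_notMem volume
  filter_upwards [this] with θ hθ h0
  exact hθ h0

lemma Ps_tendsto : Tendsto (fun σ : ℝ => ∫ θ in (0:ℝ)..(2 * π), Ps σ θ) (𝓝[>] 0) (𝓝 0) := by
  suffices h0 : Tendsto (fun σ : ℝ => ∫ θ in (0:ℝ)..(2 * π), Ps σ θ) (𝓝[>] 0)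
      (𝓝 (∫ θ in (0:ℝ)..(2 * π), (fun _ : ℝ => (0 : ℝ)) θ)) by simpa using h0
  refine intervalIntegral.tendsto_integral_filter_of_dominated_convergence
    (F := fun σ θ => Ps σ θ) (f := fun _ => 0)
    (fun θ => abs (Real.log |Real.cos ((θ + 0) / 2)|)) ?_ ?_ ?_ ?_
  · refine Eventually.of_forall fun σ => ?_
    have := (Ps_int σ 0 0 (2 * π)).def'.aestronglyMeasurable
    simpa using this
  · have h1 : ∀ᶠ σ : ℝ in 𝓝[>] 0, 0 < σ ∧ σ < 1 := by
      filter_upwards [Ioo_mem_nhdsGT (show (0 : ℝ) < 1 by norm_num)] with σ hσ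
      exact hσ
    filter_upwards [h1] with σ hσ
    refine Eventually.of_forall fun θ _ => ?_
    have h2 : Real.log σ ≤ 0 := Real.log_nonpos hσ.1.le hσ.2.le
    have h3 : Real.log |Real.cos (θ / 2)| ≤ 0 :=
      Real.log_nonpos (abs_nonneg _) (Real.abs_cos_le_one _)
    rw [add_zero, Real.norm_eq_abs, abs_of_nonneg (Ps_nonneg _ _), abs_of_nonpos h3]
    unfold Ps
    exact max_le (by linarith) (by linarith)
  · exact (logcos_int 0 0 (2 * π)).abs
  · have h1 := cos_ae 0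
    filter_upwards [h1] with θ hθ _
    rw [add_zero] at hθ
    have hpos : 0 < |Real.cos (θ / 2)| := abs_pos.2 hθ
    refine tendsto_const_nhds.congr' ?_
    filter_upwards [Ioo_mem_nhdsGT hpos] with σ hσ
    unfold Ps
    rw [max_eq_left]
    have := Real.log_le_log hσ.1 hσ.2.le
    linarith

lemma exists_sig {ε : ℝ} (hε : 0 < ε) : ∃ σ : ℝ, 0 < σ ∧ σ < 1 ∧ ∫ θ in (0:ℝ)..(2 * π), Ps σ θ ≤ ε := by
  have h1 := (Ps_tendsto.eventually (gt_mem_nhds hε))
  have h2 := h1.and (Ioo_mem_nhdsGT (show (0 : ℝ) < 1 by norm_num))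
  obtain ⟨σ, h3, h4⟩ := h2.exists
  exact ⟨σ, h4.1, h4.2, h3.le⟩

lemma norm_cos_ge (z : ℂ) : |Real.cos z.re| ≤ ‖Complex.cos z‖ := by
  have h : (Complex.cos z).re = Real.cos z.re * Real.cosh z.im := by
    rw [Complex.cos_eq]
    simp [← Complex.ofReal_cos, ← Complex.ofReal_cosh, ← Complex.ofReal_sin, ← Complex.ofReal_sinh]
  refine le_trans ?_ (Complex.abs_re_le_norm _)
  rw [h, abs_mul, abs_of_nonneg (Real.cosh_pos _).le]
  have := Real.one_le_cosh z.im
  nlinarith [abs_nonneg (Real.cos z.re)]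

lemma Gc_ge (χ : ℂ) (θ : ℝ) :
    |Real.cos ((θ + χ.re / 2) / 2)| * |Real.cos ((θ + -(χ.re / 2)) / 2)| ≤ ‖Gc χ θ‖ := by
  have e : Gc χ θ = 4 * (Complex.cos ((θ + χ / 2) / 2) * Complex.cos ((θ + -(χ / 2)) / 2)) := by
    unfold Gc
    rw [← mul_add, Complex.cos_add_cos]
    have e1 : (χ / 2 + θ) / 2 = (θ + χ / 2) / 2 := by ring
    have e2 : (χ / 2 - θ) / 2 = -((θ + -(χ / 2)) / 2) := by ring
    rw [e1, e2, Complex.cos_neg]
    ring
  have r1 : ((θ + χ / 2) / 2 : ℂ).re = (θ + χ.re / 2) / 2 := by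
    simp
  have r2 : ((θ + -(χ / 2)) / 2 : ℂ).re = (θ + -(χ.re / 2)) / 2 := by
    simp
  have h1 := norm_cos_ge ((θ + χ / 2) / 2)
  have h2 := norm_cos_ge ((θ + -(χ / 2)) / 2)
  rw [r1] at h1
  rw [r2] at h2
  rw [e, norm_mul, norm_mul]
  have h3 := mul_le_mul h1 h2 (abs_nonneg _) (norm_nonneg _)
  have h4 : ‖(4 : ℂ)‖ = 4 := by simp
  rw [h4]
  have h5 : 0 ≤ ‖Complex.cos ((θ + χ / 2) / 2)‖ * ‖Complex.cos ((θ + -(χ / 2)) / 2)‖ := by positivity
  linarith

lemma La_le {σ T t1 t2 : ℝ} (hσ : 0 < σ) (h1 : 0 < t1) (h2 : 0 < t2) (hT : t1 * t2 ≤ T) :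
    La (σ ^ 2) T ≤ Real.log T + (max 0 (Real.log σ - Real.log t1) + max 0 (Real.log σ - Real.log t2)) := by
  have hT0 : 0 < T := lt_of_lt_of_le (mul_pos h1 h2) hT
  have a1 := le_max_left 0 (Real.log σ - Real.log t1)
  have a2 := le_max_left 0 (Real.log σ - Real.log t2)
  have a3 := le_max_right 0 (Real.log σ - Real.log t1)
  have a4 := le_max_right 0 (Real.log σ - Real.log t2)
  unfold La
  rcases le_total (σ ^ 2) T with h | h
  · rw [max_eq_left h]
    linarith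
  · rw [max_eq_right h, Real.log_pow]
    have h3 := Real.log_le_log (mul_pos h1 h2) hT
    rw [Real.log_mul h1.ne' h2.ne'] at h3
    push_cast
    linarith

lemma Lm_int (χ : ℂ) (a b : ℝ) : IntervalIntegrable (fun θ : ℝ => Real.log ‖Gc χ θ‖) volume a b := by
  have h : MeromorphicOn (fun θ : ℝ => Gc χ θ) (Set.uIcc a b) := by
    intro θ _
    refine AnalyticAt.meromorphicAt ?_
    unfold Gc
    have h1 : AnalyticAt ℝ (fun θ : ℝ => Complex.cos (θ : ℂ)) θ := by
      have h2 : AnalyticAt ℝ (fun z : ℂ => Complex.cos z) (θ : ℂ) := by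
        have : AnalyticAt ℂ Complex.cos (θ : ℂ) := Complex.analyticAt_cos
        exact this.restrictScalars
      exact h2.comp (Complex.ofRealCLM.analyticAt θ)
    exact analyticAt_const.add (analyticAt_const.mul h1)
  exact h.intervalIntegrable_log_norm

/-- the truncation costs little -/
lemma trunc_le {σ : ℝ} (hσ : 0 < σ) (χ : ℂ) (x r : ℝ) (hr : 0 ≤ r) (hr2 : r ≤ π) :
    ∫ θ in (x - r)..(x + r), La (σ ^ 2) ‖Gc χ θ‖ ≤
      (∫ θ in (x - r)..(x + r), Real.log ‖Gc χ θ‖) + 2 * ∫ θ in (0:ℝ)..(2 * π), Ps σ θ := by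
  have hle : x - r ≤ x + r := by linarith
  have h1 : ∫ θ in (x - r)..(x + r), La (σ ^ 2) ‖Gc χ θ‖ ≤
      ∫ θ in (x - r)..(x + r), (Real.log ‖Gc χ θ‖ + (Ps σ (θ + χ.re / 2) + Ps σ (θ + -(χ.re / 2)))) := by
    refine intervalIntegral.integral_mono_ae hle
      ((La_cont (by positivity) (Gc_cont χ)).intervalIntegrable _ _)
      ((Lm_int χ _ _).add ((Ps_int _ _ _ _).add (Ps_int _ _ _ _))) ?_
    filter_upwards [cos_ae (χ.re / 2), cos_ae (-(χ.re / 2))] with θ a1 a2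
    exact La_le hσ (abs_pos.2 a1) (abs_pos.2 a2) (Gc_ge χ θ)
  have h2 : ∀ c : ℝ, ∫ θ in (x - r)..(x + r), Ps σ (θ + c) ≤ ∫ θ in (0:ℝ)..(2 * π), Ps σ θ := by
    intro c
    have a1 : ∫ θ in (x - r)..(x + r), Ps σ (θ + c) ≤ ∫ θ in (x - π)..(x + π), Ps σ (θ + c) :=
      intervalIntegral.integral_mono_interval (by linarith) hle (by linarith)
        (Eventually.of_forall fun θ => Ps_nonneg _ _) (Ps_int _ _ _ _)
    refine a1.trans (le_of_eq ?_)
    rw [intervalIntegral.integral_comp_add_right (fun θ => Ps σ θ) c]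
    have a2 := (Ps_per σ).intervalIntegral_add_eq (x - π + c) 0
    rw [zero_add] at a2
    rw [← a2]
    congr 1
    ring
  rw [intervalIntegral.integral_add (Lm_int χ _ _) ((Ps_int _ _ _ _).add (Ps_int _ _ _ _)),
    intervalIntegral.integral_add (Ps_int _ _ _ _) (Ps_int _ _ _ _)] at h1
  have a1 := h2 (χ.re / 2)
  have a2 := h2 (-(χ.re / 2))
  linarith

end Pool.Agent.Y125.CG
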