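import Pool.Agent.Y472.G.Defs
import Pool.Agent.Y125.CG.CnbA

set_option autoImplicit false
set_option linter.all false

/-! CB3-G-CNB: bound of the products by integrals. -/

namespace Pool.Agent.Y125.CG

open Finset Filter Topology MeasureTheory
open Pool.Agent.Y472
open scoped Real

lemma sum_cells (f : ℝ → ℝ) (hf : Continuous f) {N : ℕ} (hN : 0 < N) (n : ℕ) (x : ℝ) :
    ∑ j ∈ range n, ∫ θ in (x - π * (2 * (j : ℝ) + 1 - n) / N - π / N)..
      (x - π * (2 * (j : ℝ) + 1 - n) / N + π / N), f θ =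
      ∫ θ in (x - π * n / N)..(x + π * n / N), f θ := by
  have hNr : (N : ℝ) ≠ 0 := by positivity
  set a : ℕ → ℝ := fun j => x - π * (2 * (j : ℝ) - n) / N with ha
  have h1 := intervalIntegral.sum_integral_adjacent_intervals (f := f) (μ := volume) (a := a) (n := n)
    (fun k _ => hf.intervalIntegrable _ _)
  have h2 : a 0 = x + π * n / N := by simp only [ha]; push_cast; ring
  have h3 : a n = x - π * n / N := by simp only [ha]; ring
  rw [h2, h3] at h1
  rw [intervalIntegral.integral_symm, ← h1, ← Finset.sum_neg_distrib]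
  refine Finset.sum_congr rfl fun j _ => ?_
  have e1 : x - π * (2 * (j : ℝ) + 1 - n) / N - π / N = a (j + 1) := by
    simp only [ha]; push_cast; field_simp; ring
  have e2 : x - π * (2 * (j : ℝ) + 1 - n) / N + π / N = a j := by
    simp only [ha]; field_simp; ring
  rw [e1, e2, intervalIntegral.integral_symm]

lemma prod_bound {δ : ℝ} (hδ : 0 < δ) {N : ℕ} (hN : 0 < N) (n : ℕ) (x y : ℝ) (hy : |y| ≤ 1) (χ : ℂ) :
    ‖Cn N n χ (x + y * Complex.I)‖ ≤ Real.exp (N / (2 * π) *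
      (∫ θ in (x - π * n / N)..(x + π * n / N), La δ ‖Gc χ θ‖) +
        n * ((4 * |y| + 2 * (π / N)) / δ)) := by
  have hNr : (0 : ℝ) < N := by exact_mod_cast hN
  have hπ := Real.pi_pos
  rw [← sum_cells _ (La_cont hδ (Gc_cont χ)) hN n x]
  unfold Cn
  rw [norm_prod]
  have h1 : ∀ j ∈ range n, ‖2 * Complex.cos (χ / 2) +
      2 * Complex.cos (x + y * Complex.I - π * (2 * (j : ℂ) + 1 - n) / N)‖ ≤
      Real.exp (N / (2 * π) * (∫ θ in (x - π * (2 * (j : ℝ) + 1 - n) / N - π / N)..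
        (x - π * (2 * (j : ℝ) + 1 - n) / N + π / N), La δ ‖Gc χ θ‖) +
          (4 * |y| + 2 * (π / N)) / δ) := by
    intro j _
    have e1 : 2 * Complex.cos (χ / 2) +
      2 * Complex.cos (x + y * Complex.I - π * (2 * (j : ℂ) + 1 - n) / N) =
      Gc χ (((x - π * (2 * (j : ℝ) + 1 - n) / N : ℝ) : ℂ) + y * Complex.I) := by
      unfold Gc
      congr 3
      push_cast
      ring
    rw [e1]
    refine (le_exp_La hδ).trans (Real.exp_le_exp.2 ?_)
    have h2 := cellc hδ χ (show 0 < π / N by positivity) (x - π * (2 * (j : ℝ) + 1 - n) / N) y hy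
    have e2 : 1 / (2 * (π / (N : ℝ))) = N / (2 * π) := by field_simp
    rw [e2] at h2
    exact h2
  refine (Finset.prod_le_prod (fun _ _ => norm_nonneg _) h1).trans (le_of_eq ?_)
  rw [← Real.exp_sum, Finset.sum_add_distrib, ← Finset.mul_sum, Finset.sum_const, card_range,
    nsmul_eq_mul]

theorem cnb : S_CNB := by
  intro ε hε
  have hπ := Real.pi_pos
  have hπ3 := Real.pi_gt_three
  obtain ⟨σ, hσ, hσ1, hP⟩ := exists_sig hε
  have hδ : 0 < σ ^ 2 := by positivity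
  refine ⟨min 1 (ε * σ ^ 2 / 12), lt_min one_pos (by positivity), ?_⟩
  have hev : ∀ᶠ N : ℕ in atTop, 6 * π ≤ ε * σ ^ 2 * N := by
    have h1 : Tendsto (fun N : ℕ => ε * σ ^ 2 * (N : ℝ)) atTop atTop :=
      Tendsto.const_mul_atTop (by positivity) tendsto_natCast_atTop_atTop
    exact h1.eventually_ge_atTop _
  filter_upwards [hev, eventually_gt_atTop 0] with N hN1 hN n hn x y χ hy _ _
  have hNr : (0 : ℝ) < N := by exact_mod_cast hN
  have hnN : (n : ℝ) ≤ N := by exact_mod_cast hn.le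
  have hn0 : (0 : ℝ) ≤ n := Nat.cast_nonneg n
  refine (prod_bound hδ hN n x y (hy.trans (min_le_left _ _)) χ).trans (Real.exp_le_exp.2 ?_)
  have hr : π * n / N ≤ π := by
    rw [div_le_iff₀ hNr]
    exact mul_le_mul_of_nonneg_left hnN hπ.le
  have h1 := trunc_le hσ χ x (π * n / N) (by positivity) hr
  have hE : (4 * |y| + 2 * (π / N)) / σ ^ 2 ≤ 2 * ε / 3 := by
    have a1 : |y| ≤ ε * σ ^ 2 / 12 := hy.trans (min_le_right _ _)
    have a2 : π / N ≤ ε * σ ^ 2 / 6 := by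
      rw [div_le_iff₀ hNr]
      linarith
    rw [div_le_iff₀ hδ]
    linarith
  have hE0 : 0 ≤ (4 * |y| + 2 * (π / N)) / σ ^ 2 := by positivity
  have hLm : (∫ θ in (x - π * n / N)..(x + π * n / N), Real.log ‖Gc χ θ‖) =
      ∫ θ in (x - π * n / N)..(x + π * n / N), Lm χ θ := rfl
  rw [hLm] at h1
  set I1 := ∫ θ in (x - π * n / N)..(x + π * n / N), La (σ ^ 2) ‖Gc χ θ‖
  set I2 := ∫ θ in (x - π * n / N)..(x + π * n / N), Lm χ θ
  set P := ∫ θ in (0:ℝ)..(2 * π), Ps σ θ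
  have h2 : (N : ℝ) / (2 * π) * I1 ≤ N / (2 * π) * (I2 + 2 * ε) := by
    gcongr
    linarith
  have h3 : (n : ℝ) * ((4 * |y| + 2 * (π / N)) / σ ^ 2) ≤ N * (2 * ε / 3) :=
    mul_le_mul hnN hE hE0 hNr.le
  have h4 : (N : ℝ) / (2 * π) * (I2 + 2 * ε) = N * (1 / (2 * π) * I2) + N * (ε / π) := by
    field_simp
  have h5 : ε / π ≤ ε / 3 := div_le_div_of_nonneg_left hε.le (by norm_num) hπ3.le
  have h6 : (N : ℝ) * (ε / π) ≤ N * (ε / 3) := mul_le_mul_of_nonneg_left h5 hNr.le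
  have h7 : (N : ℝ) * (1 / (2 * π) * I2 + ε) = N * (1 / (2 * π) * I2) + N * (ε / 3) + N * (2 * ε / 3) := by
    ring
  rw [h7]
  linarith

end Pool.Agent.Y125.CG
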